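import Pool.Agent.Helper27.BG.St3

/-! # Project BG, module LOW: the new inequality summed over `n` -/

set_option autoImplicit false

noncomputable section

namespace Pool.Agent.Helper27.BG

open Finset MeasureTheory
open Pool.Agent.Helper90.MT (lam mat wt szA prt szU VV DD piDD Ok EqD Avd)
open Pool.Agent.Helper60.GP (IsB JJ)

/-! ### indicator functions -/

private def far_LOW : ℕ → ℝ := fun t => if t < 945 then 1 else 0

private def bb_LOW (j : ℕ) : ℕ → ℝ := fun t => if t = 1000 - j then 1 else 0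

private def cc_LOW (j : ℕ) : ℕ → ℝ := fun t => if t = 999 + j then 1 else 0

private def bS_LOW (s : Finset ℕ) (c : ℕ → ℝ) : ℕ → ℝ := ∑ j ∈ s, c j • bb_LOW j

private def cS_LOW (s : Finset ℕ) (c : ℕ → ℝ) : ℕ → ℝ := ∑ j ∈ s, c j • cc_LOW j

private theorem bS_apply_LOW (s : Finset ℕ) (c : ℕ → ℝ) (hs : s ⊆ Icc 1 55) (t : ℕ) :
    bS_LOW s c t = if 1000 - t ∈ s then c (1000 - t) else 0 := by
  unfold bS_LOW
  rw [Finset.sum_apply]
  simp only [Pi.smul_apply, smul_eq_mul, bb_LOW]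
  split_ifs with h
  · have h1 := mem_Icc.1 (hs h)
    rw [Finset.sum_eq_single_of_mem (1000 - t) h]
    · rw [if_pos (by omega), mul_one]
    · intro j hj hne
      have h2 := mem_Icc.1 (hs hj)
      rw [if_neg (by omega), mul_zero]
  · refine Finset.sum_eq_zero fun j hj => ?_
    have h2 := mem_Icc.1 (hs hj)
    rw [if_neg, mul_zero]
    intro h3
    have h4 : 1000 - t = j := by omega
    exact h (h4 ▸ hj)

private theorem cS_apply_LOW (s : Finset ℕ) (c : ℕ → ℝ) (hs : s ⊆ Icc 1 55) (t : ℕ) :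
    cS_LOW s c t = if t - 999 ∈ s then c (t - 999) else 0 := by
  unfold cS_LOW
  rw [Finset.sum_apply]
  simp only [Pi.smul_apply, smul_eq_mul, cc_LOW]
  split_ifs with h
  · have h1 := mem_Icc.1 (hs h)
    rw [Finset.sum_eq_single_of_mem (t - 999) h]
    · rw [if_pos (by omega), mul_one]
    · intro j hj hne
      have h2 := mem_Icc.1 (hs hj)
      rw [if_neg (by omega), mul_zero]
  · refine Finset.sum_eq_zero fun j hj => ?_
    have h2 := mem_Icc.1 (hs hj)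
    rw [if_neg, mul_zero]
    intro h3
    have h4 : t - 999 = j := by omega
    exact h (h4 ▸ hj)

private theorem bS_ne_LOW (s : Finset ℕ) (c : ℕ → ℝ) (hs : s ⊆ Icc 1 55) (t : ℕ)
    (h : bS_LOW s c t ≠ 0) : 1000 - t ∈ s := by
  rw [bS_apply_LOW s c hs] at h
  by_contra h2
  rw [if_neg h2] at h
  exact h rfl

private theorem cS_ne_LOW (s : Finset ℕ) (c : ℕ → ℝ) (hs : s ⊆ Icc 1 55) (t : ℕ)
    (h : cS_LOW s c t ≠ 0) : t - 999 ∈ s := by
  rw [cS_apply_LOW s c hs] at h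
  by_contra h2
  rw [if_neg h2] at h
  exact h rfl

/-! ### the coefficients, `κ = 17/4` -/

private def zj_LOW (N : ℕ → ℝ) (j : ℕ) : ℝ := N j / (1 + N j)

private def dj_LOW (N : ℕ → ℝ) (j : ℕ) : ℝ := 1 / (((17 / 4 : ℝ) - 1) * (1 + N j))

private def cjm_LOW (N : ℕ → ℝ) (j m : ℕ) : ℝ :=
  (17 / 4 : ℝ) / (((17 / 4 : ℝ) - 1) * (1 + N j)) * (((17 / 4 : ℝ) - 1) / (17 / 4) * (N j - N m))

private def mu_LOW (N : ℕ → ℝ) (τ : ℕ) : ℝ := ((17 / 4 : ℝ) - 1) / (17 / 4) * (N (τ + 1) - N τ)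

private def p1_LOW : ℕ → ℝ := far_LOW + bS_LOW (Icc 1 55) (fun _ => 1)

private def p2_LOW (N : ℕ → ℝ) : ℕ → ℝ := far_LOW + bS_LOW (Icc 1 55) (zj_LOW N)

private def p3_LOW : ℕ → ℝ := cS_LOW (Icc 1 55) (fun _ => 1)

private def ps_LOW (N : ℕ → ℝ) (j : ℕ) : ℕ → ℝ := cS_LOW (Ico 1 j) (cjm_LOW N j)

private def de_LOW (N : ℕ → ℝ) (τ : ℕ) : ℕ → ℝ := bS_LOW (Ioc τ 55) (dj_LOW N)

private def ch_LOW (N : ℕ → ℝ) (τ : ℕ) : ℕ → ℝ :=
  cS_LOW (Ioc τ 55) (fun _ => 1) - de_LOW N τ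

private theorem Ioc_sub_LOW (τ : ℕ) : Ioc τ 55 ⊆ Icc 1 55 := by
  intro j hj
  rw [mem_Ioc] at hj
  rw [mem_Icc]
  omega

private theorem Ico_sub_LOW (j : ℕ) (hj : j ∈ Icc 1 55) : Ico 1 j ⊆ Icc 1 55 := by
  intro i hi
  rw [mem_Icc] at hj
  rw [mem_Ico] at hi
  rw [mem_Icc]
  omega

private theorem mu_sum_LOW (N : ℕ → ℝ) (hN : N 0 = 0) (X : ℝ) (j : ℕ) (hj : j ≤ 55) :
    ∑ τ ∈ range 55, mu_LOW N τ * (if τ < j then X else 0) =
      ((17 / 4 : ℝ) - 1) / (17 / 4) * N j * X := by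
  have h1 : ∑ τ ∈ range 55, mu_LOW N τ * (if τ < j then X else 0) =
      ∑ τ ∈ range j, mu_LOW N τ * X := by
    rw [← Finset.sum_subset (Finset.range_subset_range.2 hj) (f := fun τ =>
      mu_LOW N τ * (if τ < j then X else 0))]
    · refine Finset.sum_congr rfl fun τ hτ => ?_
      rw [if_pos (mem_range.1 hτ)]
    · intro τ _ hτ
      rw [if_neg (by simpa using hτ), mul_zero]
  rw [h1, ← Finset.sum_mul]
  congr 1
  unfold mu_LOW
  rw [← Finset.mul_sum, Finset.sum_range_sub, hN, sub_zero]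

/-- the pointwise identity -/
private theorem om_LOW (N : ℕ → ℝ) (hN : N 0 = 0) (hN0 : ∀ j, 0 ≤ N j) (t : ℕ) :
    2 * (p1_LOW t * p2_LOW N t) - p2_LOW N t * p2_LOW N t + 2 * (far_LOW t * p3_LOW t) +
      ∑ j ∈ Icc 1 55, 2 * (bb_LOW j t * ps_LOW N j t) -
      ∑ τ ∈ range 55, mu_LOW N τ * (17 / 4 * (ch_LOW N τ t * ch_LOW N τ t) +
        (((17 / 4 : ℝ) - 1) ^ 2 - 1) * (de_LOW N τ t * de_LOW N τ t)) = om N t := by
  have hps : ∑ j ∈ Icc 1 55, 2 * (bb_LOW j t * ps_LOW N j t) = 0 := by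
    refine Finset.sum_eq_zero fun j hj => ?_
    unfold ps_LOW
    rw [cS_apply_LOW _ _ (Ico_sub_LOW j hj)]
    unfold bb_LOW
    have h1 := mem_Icc.1 hj
    by_cases h : t = 1000 - j
    · have h2 : ¬ (t - 999 ∈ Ico 1 j) := by
        rw [mem_Ico]; omega
      rw [if_neg h2]
      ring
    · rw [if_neg h]
      ring
  rw [hps]
  unfold om p1_LOW p2_LOW p3_LOW ch_LOW de_LOW
  simp only [Pi.add_apply, Pi.sub_apply]
  simp only [bS_apply_LOW _ _ (Ioc_sub_LOW _), cS_apply_LOW _ _ (Ioc_sub_LOW _),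
    bS_apply_LOW _ _ (Finset.Subset.refl (Icc 1 55)),
    cS_apply_LOW _ _ (Finset.Subset.refl (Icc 1 55))]
  unfold far_LOW
  by_cases h1 : t < 945
  · have e1 : ¬ (1000 - t ∈ Icc 1 55) := by rw [mem_Icc]; omega
    have e2 : ¬ (t - 999 ∈ Icc 1 55) := by rw [mem_Icc]; omega
    have e3 : ∀ τ, ¬ (1000 - t ∈ Ioc τ 55) := fun τ => by rw [mem_Ioc]; omega
    have e4 : ∀ τ, ¬ (t - 999 ∈ Ioc τ 55) := fun τ => by rw [mem_Ioc]; omega
    simp only [h1, e1, e2, e3, e4, if_true, if_false]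
    simp
    norm_num
  · by_cases h2 : t < 1000
    · have e1 : 1000 - t ∈ Icc 1 55 := by rw [mem_Icc]; omega
      have e2 : ¬ (t - 999 ∈ Icc 1 55) := by rw [mem_Icc]; omega
      have e3 : ∀ τ, (1000 - t ∈ Ioc τ 55) ↔ τ < 1000 - t := fun τ => by rw [mem_Ioc]; omega
      have e4 : ∀ τ, ¬ (t - 999 ∈ Ioc τ 55) := fun τ => by rw [mem_Ioc]; omega
      simp only [h1, h2, e1, e2, e3, e4, if_true, if_false]
      have e5 : ∀ τ, mu_LOW N τ * (17 / 4 * ((0 - if τ < 1000 - t then dj_LOW N (1000 - t)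
            else 0) * (0 - if τ < 1000 - t then dj_LOW N (1000 - t) else 0)) +
          (((17 / 4 : ℝ) - 1) ^ 2 - 1) * ((if τ < 1000 - t then dj_LOW N (1000 - t) else 0) *
            (if τ < 1000 - t then dj_LOW N (1000 - t) else 0))) =
          mu_LOW N τ * (if τ < 1000 - t then
            (17 / 4 + (((17 / 4 : ℝ) - 1) ^ 2 - 1)) * dj_LOW N (1000 - t) ^ 2 else 0) := by
        intro τ
        by_cases h : τ < 1000 - t
        · simp only [h, if_true]; ring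
        · simp only [h, if_false]; ring
      rw [Finset.sum_congr rfl fun τ _ => e5 τ, mu_sum_LOW N hN _ _ (by omega)]
      unfold zj_LOW dj_LOW
      have h3 : 0 < 1 + N (1000 - t) := by linarith [hN0 (1000 - t)]
      field_simp
      ring
    · by_cases h3 : t < 1055
      · have e1 : ¬ (1000 - t ∈ Icc 1 55) := by rw [mem_Icc]; omega
        have e2 : t - 999 ∈ Icc 1 55 := by rw [mem_Icc]; omega
        have e3 : ∀ τ, ¬ (1000 - t ∈ Ioc τ 55) := fun τ => by rw [mem_Ioc]; omega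
        have e4 : ∀ τ, (t - 999 ∈ Ioc τ 55) ↔ τ < t - 999 := fun τ => by rw [mem_Ioc]; omega
        simp only [h1, h2, h3, e1, e2, e3, e4, if_true, if_false]
        have e5 : ∀ τ, mu_LOW N τ * (17 / 4 * (((if τ < t - 999 then (1 : ℝ) else 0) - 0) *
            ((if τ < t - 999 then (1 : ℝ) else 0) - 0)) +
            (((17 / 4 : ℝ) - 1) ^ 2 - 1) * (0 * 0)) =
            mu_LOW N τ * (if τ < t - 999 then (17 / 4 : ℝ) else 0) := by
          intro τ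
          by_cases h : τ < t - 999
          · simp only [h, if_true]; ring
          · simp only [h, if_false]; ring
        rw [Finset.sum_congr rfl fun τ _ => e5 τ, mu_sum_LOW N hN _ _ (by omega)]
        ring
      · have e1 : ¬ (1000 - t ∈ Icc 1 55) := by rw [mem_Icc]; omega
        have e2 : ¬ (t - 999 ∈ Icc 1 55) := by rw [mem_Icc]; omega
        have e3 : ∀ τ, ¬ (1000 - t ∈ Ioc τ 55) := fun τ => by rw [mem_Ioc]; omega
        have e4 : ∀ τ, ¬ (t - 999 ∈ Ioc τ 55) := fun τ => by rw [mem_Ioc]; omega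
        simp only [h1, h2, h3, e1, e2, e3, e4, if_false]
        simp

private theorem tot_LOW (t : ℕ) : p1_LOW t + p3_LOW t = if t < 1055 then 1 else 0 := by
  unfold p1_LOW p3_LOW
  simp only [Pi.add_apply, bS_apply_LOW _ _ (Finset.Subset.refl (Icc 1 55)),
    cS_apply_LOW _ _ (Finset.Subset.refl (Icc 1 55))]
  unfold far_LOW
  by_cases h1 : t < 945
  · have e1 : ¬ (1000 - t ∈ Icc 1 55) := by rw [mem_Icc]; omega
    have e2 : ¬ (t - 999 ∈ Icc 1 55) := by rw [mem_Icc]; omega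
    have e3 : t < 1055 := by omega
    simp only [h1, e1, e2, e3, if_true, if_false]
    norm_num
  · by_cases h2 : t < 1000
    · have e1 : 1000 - t ∈ Icc 1 55 := by rw [mem_Icc]; omega
      have e2 : ¬ (t - 999 ∈ Icc 1 55) := by rw [mem_Icc]; omega
      have e3 : t < 1055 := by omega
      simp only [h1, e1, e2, e3, if_true, if_false]
      norm_num
    · by_cases h3 : t < 1055
      · have e1 : ¬ (1000 - t ∈ Icc 1 55) := by rw [mem_Icc]; omega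
        have e2 : t - 999 ∈ Icc 1 55 := by rw [mem_Icc]; omega
        simp only [h1, h3, e1, e2, if_true, if_false]
        norm_num
      · have e1 : ¬ (1000 - t ∈ Icc 1 55) := by rw [mem_Icc]; omega
        have e2 : ¬ (t - 999 ∈ Icc 1 55) := by rw [mem_Icc]; omega
        simp only [h1, h3, e1, e2, if_false]
        norm_num

/-! ### linear maps -/

section lin
variable {ι : Type} [Fintype ι] [DecidableEq ι]

private def ORl_LOW (m : ι) : (ℕ → ℝ) →ₗ[ℝ] ℝ where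
  toFun φ := OR m φ
  map_add' φ ψ := by
    unfold OR
    simp only [Pi.add_apply, add_mul, Finset.sum_add_distrib]
  map_smul' c φ := by
    unfold OR
    simp only [Pi.smul_apply, smul_eq_mul, RingHom.id_apply, Finset.mul_sum, mul_assoc]

private def Ll_LOW (hLin : StLin) (sh : ι → ℕ) (m : ι) (W M n : ℕ) : (ℕ → ℝ) →ₗ[ℝ] ℝ where
  toFun φ := LF (pw W M) sh (UU W M m φ) n
  map_add' φ ψ := by
    have h := (hLin (Pw W M) ι (pw W M) sh (UU W M m φ) (UU W M m ψ) 0 n).1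
    rw [← h]
    congr 1
    funext a
    simp only [UU, Pi.add_apply, add_mul]
  map_smul' c φ := by
    have h := (hLin (Pw W M) ι (pw W M) sh (UU W M m φ) (UU W M m φ) c n).2
    rw [RingHom.id_apply, smul_eq_mul, ← h]
    congr 1
    funext a
    simp only [UU, Pi.smul_apply, smul_eq_mul, mul_assoc]

/-- the pointwise inequality for a linear map -/
private theorem ptw_LOW (hPtw : StPtw) (L : (ℕ → ℝ) →ₗ[ℝ] ℝ) (N : ℕ → ℝ) (hN : N 0 = 0)
    (hmono : Monotone N) :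
    2 * (L p1_LOW * L (p2_LOW N)) - L (p2_LOW N) * L (p2_LOW N) +
      2 * (L far_LOW * L p3_LOW) +
      ∑ j ∈ Icc 1 55, 2 * (L (bb_LOW j) * L (ps_LOW N j)) -
      ∑ τ ∈ range 55, mu_LOW N τ * (L (ch_LOW N τ) * L (ch_LOW N τ) +
        (((17 / 4 : ℝ) - 1) ^ 2 - 1) * (L (de_LOW N τ) * L (de_LOW N τ))) ≤
      (L (p1_LOW + p3_LOW)) ^ 2 := by
  have h := hPtw 55 N (fun j => L (bb_LOW j)) (fun j => L (cc_LOW j)) (L far_LOW) (17 / 4)
    (by norm_num) hN hmono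
  have e1 : L p1_LOW = L far_LOW + ∑ j ∈ Icc 1 55, L (bb_LOW j) := by
    unfold p1_LOW bS_LOW
    rw [map_add, map_sum]
    simp only [map_smul, smul_eq_mul, one_mul]
  have e2 : L (p2_LOW N) = L far_LOW + ∑ j ∈ Icc 1 55, N j / (1 + N j) * L (bb_LOW j) := by
    unfold p2_LOW bS_LOW
    rw [map_add, map_sum]
    simp only [map_smul, smul_eq_mul, zj_LOW]
  have e3 : L p3_LOW = ∑ j ∈ Icc 1 55, L (cc_LOW j) := by
    unfold p3_LOW cS_LOW
    rw [map_sum]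
    simp only [map_smul, smul_eq_mul, one_mul]
  have e4 : ∀ j, L (ps_LOW N j) = ∑ m ∈ Ico 1 j, (17 / 4 : ℝ) / (((17 / 4 : ℝ) - 1) *
      (1 + N j)) * (((17 / 4 : ℝ) - 1) / (17 / 4) * (N j - N m)) * L (cc_LOW m) := by
    intro j
    unfold ps_LOW cS_LOW
    rw [map_sum]
    simp only [map_smul, smul_eq_mul, cjm_LOW]
  have e5 : ∀ τ, L (de_LOW N τ) =
      ∑ j ∈ Ioc τ 55, 1 / (((17 / 4 : ℝ) - 1) * (1 + N j)) * L (bb_LOW j) := by
    intro τ
    unfold de_LOW bS_LOW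
    rw [map_sum]
    simp only [map_smul, smul_eq_mul, dj_LOW]
  have e6 : ∀ τ, L (ch_LOW N τ) = ∑ j ∈ Ioc τ 55, L (cc_LOW j) -
      ∑ j ∈ Ioc τ 55, 1 / (((17 / 4 : ℝ) - 1) * (1 + N j)) * L (bb_LOW j) := by
    intro τ
    unfold ch_LOW
    rw [map_sub, e5]
    unfold cS_LOW
    rw [map_sum]
    simp only [map_smul, smul_eq_mul, one_mul]
  have e7 : L (p1_LOW + p3_LOW) =
      L far_LOW + ∑ j ∈ Icc 1 55, L (bb_LOW j) + ∑ j ∈ Icc 1 55, L (cc_LOW j) := by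
    rw [map_add, e1, e3]
  rw [e7]
  refine le_trans (le_of_eq ?_) h
  have e8 : ∑ j ∈ Icc 1 55, 2 * (L (bb_LOW j) * L (ps_LOW N j)) =
      2 * ∑ j ∈ Icc 1 55, ∑ m ∈ Ico 1 j, (17 / 4 : ℝ) / (((17 / 4 : ℝ) - 1) *
      (1 + N j)) * (((17 / 4 : ℝ) - 1) / (17 / 4) * (N j - N m)) *
        (L (bb_LOW j) * L (cc_LOW m)) := by
    rw [Finset.mul_sum]
    refine Finset.sum_congr rfl fun j _ => ?_
    rw [e4, Finset.mul_sum]
    congr 1
    refine Finset.sum_congr rfl fun m _ => ?_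
    ring
  have e9 : ∑ τ ∈ range 55, mu_LOW N τ * (L (ch_LOW N τ) * L (ch_LOW N τ) +
        (((17 / 4 : ℝ) - 1) ^ 2 - 1) * (L (de_LOW N τ) * L (de_LOW N τ))) =
      ∑ τ ∈ range 55, ((17 / 4 : ℝ) - 1) / (17 / 4) * (N (τ + 1) - N τ) *
      ((∑ j ∈ Ioc τ 55, L (cc_LOW j) -
        ∑ j ∈ Ioc τ 55, 1 / (((17 / 4 : ℝ) - 1) * (1 + N j)) * L (bb_LOW j)) ^ 2 +
       (((17 / 4 : ℝ) - 1) ^ 2 - 1) *
        (∑ j ∈ Ioc τ 55, 1 / (((17 / 4 : ℝ) - 1) * (1 + N j)) * L (bb_LOW j)) ^ 2) := by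
    refine Finset.sum_congr rfl fun τ _ => ?_
    rw [e6, e5]
    unfold mu_LOW
    ring
  rw [e8, e9, e1, e2, e3]
  ring

end lin

/-! ### events -/

private def Ev_LOW {ι : Type} (sh : ι → ℕ) (Q : ℕ → ℕ → ℕ → Prop) : Prop :=
  ∃ w₀ : ℕ, ∀ w ≥ w₀, ∀ W v : ℕ, Gd sh w W v → ∃ M₁ : ℕ, ∀ M ≥ M₁, Q W v M

private theorem Ev_and_LOW {ι : Type} {sh : ι → ℕ} {Q1 Q2 : ℕ → ℕ → ℕ → Prop}
    (h1 : Ev_LOW sh Q1) (h2 : Ev_LOW sh Q2) :
    Ev_LOW sh (fun W v M => Q1 W v M ∧ Q2 W v M) := by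
  obtain ⟨a, ha⟩ := h1
  obtain ⟨b, hb⟩ := h2
  refine ⟨max a b, fun w hw W v hG => ?_⟩
  obtain ⟨x, hx⟩ := ha w ((le_max_left _ _).trans hw) W v hG
  obtain ⟨y, hy⟩ := hb w ((le_max_right _ _).trans hw) W v hG
  exact ⟨max x y, fun M hM => ⟨hx M ((le_max_left _ _).trans hM),
    hy M ((le_max_right _ _).trans hM)⟩⟩

private theorem Ev_fin_LOW {ι : Type} {sh : ι → ℕ} (s : Finset ℕ)
    (Q : ℕ → ℕ → ℕ → ℕ → Prop) (h : ∀ j ∈ s, Ev_LOW sh (Q j)) :
    Ev_LOW sh (fun W v M => ∀ j ∈ s, Q j W v M) := by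
  induction s using Finset.induction_on with
  | empty => exact ⟨0, fun w _ W v _ => ⟨0, fun M _ j hj => absurd hj (by simp)⟩⟩
  | insert k s hk ih =>
    obtain ⟨a, ha⟩ := Ev_and_LOW (h k (mem_insert_self _ _))
      (ih fun j hj => h j (mem_insert_of_mem hj))
    refine ⟨a, fun w hw W v hG => ?_⟩
    obtain ⟨x, hx⟩ := ha w hw W v hG
    refine ⟨x, fun M hM j hj => ?_⟩
    rcases mem_insert.1 hj with rfl | hj
    · exact (hx M hM).1
    · exact (hx M hM).2 j hj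

private theorem bd_LOW (φ : ℕ → ℝ) (T : ℕ) (h : ∀ t, φ t ≠ 0 → t < T) (t : ℕ) :
    |φ t| ≤ ∑ s ∈ range T, |φ s| := by
  by_cases h0 : φ t = 0
  · rw [h0, abs_zero]
    exact Finset.sum_nonneg fun _ _ => abs_nonneg _
  · exact Finset.single_le_sum (f := fun s => |φ s|) (fun _ _ => abs_nonneg _)
      (mem_range.2 (h t h0))

/-! ### sums over `n` -/

section sg
variable {ι : Type} [Fintype ι] [DecidableEq ι]

private def sg_LOW (ω : ℝ → ℝ) (sh : ι → ℕ) (m : ι) (W v M : ℕ) (φ ψ : ℕ → ℝ) : ℝ :=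
  ∑ n ∈ (range (4 * M + 1)).filter (fun n => n ≡ v [MOD W]), fM ω M (n + sh m) *
      (LF (pw W M) sh (UU W M m φ) n * LF (pw W M) sh (UU W M m ψ) n)

private def P_LOW (ω : ℝ → ℝ) (W M : ℕ) : ℝ := JJ ω * M / W.totient * SS W M ^ 50

private theorem blf_LOW (hBlf : BlfC) (ω : ℝ → ℝ) (hω : IsB ω) (hJ : 0 < JJ ω) (sh : ι → ℕ)
    (m : ι) (hc : Fintype.card ι = 49) (φ ψ : ℕ → ℝ) (T1 T2 : ℕ) (h1 : ∀ t, φ t ≠ 0 → t < T1)
    (h2 : ∀ t, ψ t ≠ 0 → t < T2) (hT : T1 + T2 ≤ 2000) (ε : ℝ) (hε : 0 < ε) :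
    Ev_LOW sh (fun W v M => |sg_LOW ω sh m W v M φ ψ -
      P_LOW ω W M * OR m (fun t => φ t * ψ t)| ≤ ε * P_LOW ω W M) := by
  set b : ℝ := ∑ s ∈ range T1, |φ s| + ∑ s ∈ range T2, |ψ s| with hb
  have b1 : ∀ t, |φ t| ≤ b := fun t => (bd_LOW φ T1 h1 t).trans
    (le_add_of_nonneg_right (Finset.sum_nonneg fun _ _ => abs_nonneg _))
  have b2 : ∀ t, |ψ t| ≤ b := fun t => (bd_LOW ψ T2 h2 t).trans
    (le_add_of_nonneg_left (Finset.sum_nonneg fun _ _ => abs_nonneg _))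
  exact hBlf ω hω hJ ι sh m hc φ ψ b T1 T2 b1 b2 h1 h2 hT ε hε

private theorem mjf_LOW (hMjf : MjfC) (ω : ℝ → ℝ) (hω : IsB ω) (hJ : 0 < JJ ω) (sh : ι → ℕ)
    (m : ι) (hc : Fintype.card ι = 49) (φ : ℕ → ℝ) (h1 : ∀ t, φ t ≠ 0 → t < 1055)
    (ε : ℝ) (hε : 0 < ε) :
    Ev_LOW sh (fun W v M => sg_LOW ω sh m W v M φ φ ≤
      P_LOW ω W M * (17 / 4 * OR m (fun t => φ t * φ t) + ε)) := by
  have h := hMjf ω hω hJ ι sh m hc φ (∑ s ∈ range 1055, |φ s|) (bd_LOW φ 1055 h1) h1 ε hε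
  simp only [sq] at h
  exact h

end sg

private theorem bb_eq_LOW (j : ℕ) (t : ℕ) (h : bb_LOW j t ≠ 0) : t = 1000 - j := by
  unfold bb_LOW at h
  by_contra h2
  rw [if_neg h2] at h
  exact h rfl

theorem hLow : StLow := by
  intro hLin hPtw hMrg hVbd hOkw hEta hBlf hMjf ω hω hJ ι _ _ sh m hcard N hN hmono ε hε
  have hN0 : ∀ j, 0 ≤ N j := fun j => hN ▸ hmono (Nat.zero_le j)
  have hmu : ∀ τ, 0 ≤ mu_LOW N τ := fun τ => by
    unfold mu_LOW
    have := hmono (Nat.le_succ τ)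
    exact mul_nonneg (by norm_num) (by linarith)
  have hc0 : 0 ≤ ∑ τ ∈ range 55, mu_LOW N τ * (1 + (((17 / 4 : ℝ) - 1) ^ 2 - 1)) :=
    Finset.sum_nonneg fun τ _ => mul_nonneg (hmu τ) (by norm_num)
  set C0 : ℝ := 115 + ∑ τ ∈ range 55, mu_LOW N τ * (1 + (((17 / 4 : ℝ) - 1) ^ 2 - 1)) with hC0
  have hC0' : 0 < C0 := by linarith
  set ε₁ : ℝ := ε / C0 with hε₁
  have hε₁' : 0 < ε₁ := div_pos hε hC0'
  -- supports
  have sfar : ∀ t, far_LOW t ≠ 0 → t < 945 := by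
    intro t h
    unfold far_LOW at h
    by_contra h2
    rw [if_neg h2] at h
    exact h rfl
  have sp1 : ∀ t, p1_LOW t ≠ 0 → t < 1000 := by
    intro t h
    by_contra h2
    apply h
    unfold p1_LOW
    rw [Pi.add_apply, bS_apply_LOW _ _ (Finset.Subset.refl _),
      if_neg (by rw [mem_Icc]; omega)]
    unfold far_LOW
    rw [if_neg (by omega), add_zero]
  have sp2 : ∀ t, p2_LOW N t ≠ 0 → t < 1000 := by
    intro t h
    by_contra h2
    apply h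
    unfold p2_LOW
    rw [Pi.add_apply, bS_apply_LOW _ _ (Finset.Subset.refl _),
      if_neg (by rw [mem_Icc]; omega)]
    unfold far_LOW
    rw [if_neg (by omega), add_zero]
  have sp3 : ∀ t, p3_LOW t ≠ 0 → t < 1055 := by
    intro t h
    have := cS_ne_LOW _ _ (Finset.Subset.refl _) t h
    rw [mem_Icc] at this
    omega
  have sde : ∀ τ t, de_LOW N τ t ≠ 0 → t < 1000 := by
    intro τ t h
    have := bS_ne_LOW _ _ (Ioc_sub_LOW τ) t h
    rw [mem_Ioc] at this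
    omega
  have sch : ∀ τ t, ch_LOW N τ t ≠ 0 → t < 1055 := by
    intro τ t h
    by_contra h2
    apply h
    unfold ch_LOW de_LOW
    rw [Pi.sub_apply, bS_apply_LOW _ _ (Ioc_sub_LOW τ), cS_apply_LOW _ _ (Ioc_sub_LOW τ),
      if_neg (by rw [mem_Ioc]; omega), if_neg (by rw [mem_Ioc]; omega), sub_zero]
  -- events
  have v1 := blf_LOW hBlf ω hω hJ sh m hcard p1_LOW (p2_LOW N) 1000 1000 sp1 sp2 (by norm_num)
    ε₁ hε₁'
  have v2 := blf_LOW hBlf ω hω hJ sh m hcard (p2_LOW N) (p2_LOW N) 1000 1000 sp2 sp2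
    (by norm_num) ε₁ hε₁'
  have v3 := blf_LOW hBlf ω hω hJ sh m hcard far_LOW p3_LOW 945 1055 sfar sp3 (by norm_num)
    ε₁ hε₁'
  have v4 := Ev_fin_LOW (sh := sh) (Icc 1 55) (fun j W v M =>
    |sg_LOW ω sh m W v M (bb_LOW j) (ps_LOW N j) -
      P_LOW ω W M * OR m (fun t => bb_LOW j t * ps_LOW N j t)| ≤ ε₁ * P_LOW ω W M)
    (fun j hj => by
      have hj' := mem_Icc.1 hj
      refine blf_LOW hBlf ω hω hJ sh m hcard (bb_LOW j) (ps_LOW N j) (1001 - j) (999 + j)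
        ?_ ?_ (by omega) ε₁ hε₁'
      · intro t h
        have := bb_eq_LOW j t h
        omega
      · intro t h
        have := cS_ne_LOW _ _ (Ico_sub_LOW j hj) t h
        rw [mem_Ico] at this
        omega)
  have v5 := Ev_fin_LOW (sh := sh) (range 55) (fun τ W v M =>
    sg_LOW ω sh m W v M (ch_LOW N τ) (ch_LOW N τ) ≤
      P_LOW ω W M * (17 / 4 * OR m (fun t => ch_LOW N τ t * ch_LOW N τ t) + ε₁))
    (fun τ _ => mjf_LOW hMjf ω hω hJ sh m hcard (ch_LOW N τ) (sch τ) ε₁ hε₁')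
  have v6 := Ev_fin_LOW (sh := sh) (range 55) (fun τ W v M =>
    |sg_LOW ω sh m W v M (de_LOW N τ) (de_LOW N τ) -
      P_LOW ω W M * OR m (fun t => de_LOW N τ t * de_LOW N τ t)| ≤ ε₁ * P_LOW ω W M)
    (fun τ _ => blf_LOW hBlf ω hω hJ sh m hcard (de_LOW N τ) (de_LOW N τ) 1000 1000 (sde τ)
      (sde τ) (by norm_num) ε₁ hε₁')
  obtain ⟨B, hB, hO⟩ := hOkw
  obtain ⟨hF1, hF2, hF3⟩ := hO ι hcard
  have v7 : Ev_LOW sh (fun W v M => Ok (pw W M) sh 49 W v ∧ 1 < RR M ∧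
      ∀ a : Pw W M → Option ι, (totN M (prt (pw W M) a) < 1055 ↔
        (szA (pw W M) a : ℝ) < RR M ^ (1055 / 1000 : ℝ))) := by
    refine ⟨98, fun w hw W v hG => ?_⟩
    obtain ⟨M₁, hM₁⟩ := hF3 sh w W v hw hG
    exact ⟨M₁, fun M hM => ⟨(hM₁ M hM).1, (hM₁ M hM).2.2.1, (hM₁ M hM).2.2.2.1⟩⟩
  obtain ⟨C, hC, M₂, hE⟩ := hEta ω hω 0
  have v8 : Ev_LOW sh (fun W v M => (∀ n, 0 ≤ fM ω M n) ∧
      (∀ n, fM ω M n ≠ 0 → n.Prime ∧ n ∈ Ioc M (4 * M))) :=
    ⟨0, fun w _ W v _ => ⟨M₂, fun M hM => ⟨(hE M hM).2.2.1, (hE M hM).2.2.2.2.1⟩⟩⟩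
  obtain ⟨w₀, hw₀⟩ := Ev_and_LOW v1 (Ev_and_LOW v2 (Ev_and_LOW v3 (Ev_and_LOW v4
    (Ev_and_LOW v5 (Ev_and_LOW v6 (Ev_and_LOW v7 v8))))))
  refine ⟨w₀, fun w hw W v hG => ?_⟩
  obtain ⟨M₁, hM₁⟩ := hw₀ w hw W v hG
  refine ⟨M₁, fun M hM => ?_⟩
  obtain ⟨u1, u2, u3, u4, u5, u6, ⟨hOk, hRR, hiff⟩, hf0, hfp⟩ := hM₁ M hM
  have hSS : 0 ≤ SS W M := by
    unfold SS
    exact mul_nonneg (by positivity) (Real.log_nonneg hRR.le)
  have hP : 0 ≤ P_LOW ω W M := by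
    unfold P_LOW
    positivity
  -- the marginal
  have hV : UU W M m (p1_LOW + p3_LOW) = Vm (pw W M) m (YY W M) := by
    have hY : ∀ a : Pw W M → Option ι, YY W M a ≠ 0 →
        (szA (pw W M) a : ℝ) < RR M ^ (1055 / 1000 : ℝ) := fun a ha =>
      (hiff a).1 (hF2 _ _ ha).2
    obtain ⟨Z, hZ1, hZ2⟩ : ∃ Z : ℝ, Z < RR M ^ (1055 / 1000 : ℝ) ∧
        ∀ a : Pw W M → Option ι, YY W M a ≠ 0 → (szA (pw W M) a : ℝ) ≤ Z := by
      classical
      rcases Finset.eq_empty_or_nonempty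
        ((univ : Finset (Pw W M → Option ι)).filter (fun a => YY W M a ≠ 0)) with h | h
      · refine ⟨0, Real.rpow_pos_of_pos (by linarith) _, fun a ha => ?_⟩
        have : a ∈ (univ : Finset (Pw W M → Option ι)).filter (fun a => YY W M a ≠ 0) := by
          simp [ha]
        rw [h] at this
        exact absurd this (by simp)
      · obtain ⟨a₀, ha₀, hmax⟩ := Finset.exists_max_image _
          (fun a => (szA (pw W M) a : ℝ)) h
        refine ⟨_, hY a₀ (mem_filter.1 ha₀).2, fun a ha => hmax a ?_⟩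
        simp [ha]
    have hvb := (hVbd (Pw W M) ι (pw W M) m (YY W M) B Z hOk.prime hB.le
      (fun a => hF1 _ _) hZ2).2
    funext a
    unfold UU
    by_cases ha : Vm (pw W M) m (YY W M) a = 0
    · rw [ha, mul_zero]
    · have h1 := (hvb a ha).2
      have h2 := (hiff a).2 (lt_of_le_of_lt h1 hZ1)
      rw [Pi.add_apply, tot_LOW, if_pos h2, one_mul]
  -- pointwise
  set Fs := (range (4 * M + 1)).filter (fun n => n ≡ v [MOD W]) with hFs
  have hpt : ∀ n ∈ Fs,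
      2 * (fM ω M (n + sh m) * (LF (pw W M) sh (UU W M m p1_LOW) n *
          LF (pw W M) sh (UU W M m (p2_LOW N)) n)) -
        fM ω M (n + sh m) * (LF (pw W M) sh (UU W M m (p2_LOW N)) n *
          LF (pw W M) sh (UU W M m (p2_LOW N)) n) +
        2 * (fM ω M (n + sh m) * (LF (pw W M) sh (UU W M m far_LOW) n *
          LF (pw W M) sh (UU W M m p3_LOW) n)) +
        ∑ j ∈ Icc 1 55, 2 * (fM ω M (n + sh m) * (LF (pw W M) sh (UU W M m (bb_LOW j)) n *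
          LF (pw W M) sh (UU W M m (ps_LOW N j)) n)) -
        ∑ τ ∈ range 55, mu_LOW N τ * (fM ω M (n + sh m) *
          (LF (pw W M) sh (UU W M m (ch_LOW N τ)) n *
            LF (pw W M) sh (UU W M m (ch_LOW N τ)) n) +
          (((17 / 4 : ℝ) - 1) ^ 2 - 1) * (fM ω M (n + sh m) *
            (LF (pw W M) sh (UU W M m (de_LOW N τ)) n *
              LF (pw W M) sh (UU W M m (de_LOW N τ)) n))) ≤
      fM ω M (n + sh m) * LF (pw W M) sh (YY W M) n ^ 2 := by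
    intro n _
    have hL := ptw_LOW hPtw (Ll_LOW hLin sh m W M n) N hN hmono
    by_cases h0 : fM ω M (n + sh m) = 0
    · rw [h0]
      simp
    · obtain ⟨hpr, hmem⟩ := hfp _ h0
      rw [mem_Ioc] at hmem
      have hnd : ∀ i, ¬ pw W M i ∣ n + sh m := by
        intro i hi
        have h1 := (Nat.prime_dvd_prime_iff_eq (hOk.prime i) hpr).1 hi
        have h2 := (mem_filter.1 i.2).1
        rw [mem_range] at h2
        have h3 : pw W M i = (i : ℕ) := rfl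
        omega
      have h1 : LF (pw W M) sh (YY W M) n =
          (Ll_LOW hLin sh m W M n) (p1_LOW + p3_LOW) := by
        rw [hMrg (Pw W M) ι (pw W M) sh m (YY W M) n hOk.prime hnd, ← hV]
        rfl
      rw [h1]
      refine le_trans (le_of_eq ?_) (mul_le_mul_of_nonneg_left hL (hf0 (n + sh m)))
      rw [mul_sub, mul_add, Finset.mul_sum, Finset.mul_sum]
      congr 1
      · congr 1
        · change _ = fM ω M (n + sh m) * (2 * (LF (pw W M) sh (UU W M m p1_LOW) n *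
            LF (pw W M) sh (UU W M m (p2_LOW N)) n) -
            LF (pw W M) sh (UU W M m (p2_LOW N)) n * LF (pw W M) sh (UU W M m (p2_LOW N)) n +
            2 * (LF (pw W M) sh (UU W M m far_LOW) n * LF (pw W M) sh (UU W M m p3_LOW) n))
          ring
        · refine Finset.sum_congr rfl fun j _ => ?_
          change _ = fM ω M (n + sh m) * (2 * (LF (pw W M) sh (UU W M m (bb_LOW j)) n *
            LF (pw W M) sh (UU W M m (ps_LOW N j)) n))
          ring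
      · refine Finset.sum_congr rfl fun τ _ => ?_
        change _ = fM ω M (n + sh m) * (mu_LOW N τ *
          (LF (pw W M) sh (UU W M m (ch_LOW N τ)) n * LF (pw W M) sh (UU W M m (ch_LOW N τ)) n +
          (((17 / 4 : ℝ) - 1) ^ 2 - 1) * (LF (pw W M) sh (UU W M m (de_LOW N τ)) n *
            LF (pw W M) sh (UU W M m (de_LOW N τ)) n)))
        ring
  have hsum := Finset.sum_le_sum hpt
  rw [Finset.sum_sub_distrib, Finset.sum_add_distrib, Finset.sum_add_distrib,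
    Finset.sum_sub_distrib, ← Finset.mul_sum, ← Finset.mul_sum,
    Finset.sum_comm (s := Fs) (t := Icc 1 55), Finset.sum_comm (s := Fs) (t := range 55)] at hsum
  have g4 : ∑ j ∈ Icc 1 55, ∑ n ∈ Fs, 2 * (fM ω M (n + sh m) *
      (LF (pw W M) sh (UU W M m (bb_LOW j)) n * LF (pw W M) sh (UU W M m (ps_LOW N j)) n)) =
      ∑ j ∈ Icc 1 55, 2 * sg_LOW ω sh m W v M (bb_LOW j) (ps_LOW N j) := by
    refine Finset.sum_congr rfl fun j _ => ?_
    rw [← Finset.mul_sum]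
    rfl
  have g5 : ∑ τ ∈ range 55, ∑ n ∈ Fs, mu_LOW N τ * (fM ω M (n + sh m) *
          (LF (pw W M) sh (UU W M m (ch_LOW N τ)) n *
            LF (pw W M) sh (UU W M m (ch_LOW N τ)) n) +
          (((17 / 4 : ℝ) - 1) ^ 2 - 1) * (fM ω M (n + sh m) *
            (LF (pw W M) sh (UU W M m (de_LOW N τ)) n *
              LF (pw W M) sh (UU W M m (de_LOW N τ)) n))) =
      ∑ τ ∈ range 55, mu_LOW N τ * (sg_LOW ω sh m W v M (ch_LOW N τ) (ch_LOW N τ) +
        (((17 / 4 : ℝ) - 1) ^ 2 - 1) * sg_LOW ω sh m W v M (de_LOW N τ) (de_LOW N τ)) := by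
    refine Finset.sum_congr rfl fun τ _ => ?_
    rw [← Finset.mul_sum, Finset.sum_add_distrib, ← Finset.mul_sum]
    rfl
  rw [g4, g5] at hsum
  have hsum' : 2 * sg_LOW ω sh m W v M p1_LOW (p2_LOW N) -
      sg_LOW ω sh m W v M (p2_LOW N) (p2_LOW N) + 2 * sg_LOW ω sh m W v M far_LOW p3_LOW +
      ∑ j ∈ Icc 1 55, 2 * sg_LOW ω sh m W v M (bb_LOW j) (ps_LOW N j) -
      ∑ τ ∈ range 55, mu_LOW N τ * (sg_LOW ω sh m W v M (ch_LOW N τ) (ch_LOW N τ) +
        (((17 / 4 : ℝ) - 1) ^ 2 - 1) * sg_LOW ω sh m W v M (de_LOW N τ) (de_LOW N τ)) ≤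
      ∑ n ∈ Fs, fM ω M (n + sh m) * LF (pw W M) sh (YY W M) n ^ 2 := hsum
  -- the main term
  have hOR : OR m (om N) = 2 * OR m (fun t => p1_LOW t * p2_LOW N t) -
      OR m (fun t => p2_LOW N t * p2_LOW N t) + 2 * OR m (fun t => far_LOW t * p3_LOW t) +
      ∑ j ∈ Icc 1 55, 2 * OR m (fun t => bb_LOW j t * ps_LOW N j t) -
      ∑ τ ∈ range 55, mu_LOW N τ * (17 / 4 * OR m (fun t => ch_LOW N τ t * ch_LOW N τ t) +
        (((17 / 4 : ℝ) - 1) ^ 2 - 1) * OR m (fun t => de_LOW N τ t * de_LOW N τ t)) := by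
    have e : om N = (2 : ℝ) • (fun t => p1_LOW t * p2_LOW N t) -
        (fun t => p2_LOW N t * p2_LOW N t) + (2 : ℝ) • (fun t => far_LOW t * p3_LOW t) +
        ∑ j ∈ Icc 1 55, (2 : ℝ) • (fun t => bb_LOW j t * ps_LOW N j t) -
        ∑ τ ∈ range 55, mu_LOW N τ • ((17 / 4 : ℝ) • (fun t => ch_LOW N τ t * ch_LOW N τ t) +
          (((17 / 4 : ℝ) - 1) ^ 2 - 1) • (fun t => de_LOW N τ t * de_LOW N τ t)) := by
      funext t
      rw [← om_LOW N hN hN0 t]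
      simp only [Pi.add_apply, Pi.sub_apply, Pi.smul_apply, smul_eq_mul, Finset.sum_apply]
    have e2 : OR m (om N) = ORl_LOW m (om N) := rfl
    rw [e2, e, map_sub, map_add, map_add, map_sub, map_sum, map_sum]
    simp only [map_smul, map_add, smul_eq_mul]
    rfl
  -- conclusion
  have k4 : ∑ j ∈ Icc 1 55, 2 * (P_LOW ω W M * OR m (fun t => bb_LOW j t * ps_LOW N j t) -
      ε₁ * P_LOW ω W M) ≤
      ∑ j ∈ Icc 1 55, 2 * sg_LOW ω sh m W v M (bb_LOW j) (ps_LOW N j) := by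
    refine Finset.sum_le_sum fun j hj => ?_
    have := (abs_le.1 (u4 j hj)).1
    linarith
  have k5 : ∑ τ ∈ range 55, mu_LOW N τ * (sg_LOW ω sh m W v M (ch_LOW N τ) (ch_LOW N τ) +
        (((17 / 4 : ℝ) - 1) ^ 2 - 1) * sg_LOW ω sh m W v M (de_LOW N τ) (de_LOW N τ)) ≤
      ∑ τ ∈ range 55, mu_LOW N τ * (P_LOW ω W M * (17 / 4 *
          OR m (fun t => ch_LOW N τ t * ch_LOW N τ t) + ε₁) +
        (((17 / 4 : ℝ) - 1) ^ 2 - 1) * (P_LOW ω W M *
          OR m (fun t => de_LOW N τ t * de_LOW N τ t) + ε₁ * P_LOW ω W M)) := by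
    refine Finset.sum_le_sum fun τ hτ => ?_
    refine mul_le_mul_of_nonneg_left ?_ (hmu τ)
    have h1 := u5 τ hτ
    have h2 := (abs_le.1 (u6 τ hτ)).2
    have h3 : sg_LOW ω sh m W v M (de_LOW N τ) (de_LOW N τ) ≤
      P_LOW ω W M * OR m (fun t => de_LOW N τ t * de_LOW N τ t) + ε₁ * P_LOW ω W M := by
      linarith
    exact add_le_add h1 (mul_le_mul_of_nonneg_left h3 (by norm_num))
  have k1 := (abs_le.1 u1).1
  have k2 := (abs_le.1 u2).2
  have k3 := (abs_le.1 u3).1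
  refine le_trans ?_ hsum'
  have hfin : P_LOW ω W M * (OR m (om N) - ε) =
      2 * (P_LOW ω W M * OR m (fun t => p1_LOW t * p2_LOW N t) - ε₁ * P_LOW ω W M) -
      (P_LOW ω W M * OR m (fun t => p2_LOW N t * p2_LOW N t) + ε₁ * P_LOW ω W M) +
      2 * (P_LOW ω W M * OR m (fun t => far_LOW t * p3_LOW t) - ε₁ * P_LOW ω W M) +
      ∑ j ∈ Icc 1 55, 2 * (P_LOW ω W M * OR m (fun t => bb_LOW j t * ps_LOW N j t) -
        ε₁ * P_LOW ω W M) -
      ∑ τ ∈ range 55, mu_LOW N τ * (P_LOW ω W M * (17 / 4 *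
          OR m (fun t => ch_LOW N τ t * ch_LOW N τ t) + ε₁) +
        (((17 / 4 : ℝ) - 1) ^ 2 - 1) * (P_LOW ω W M *
          OR m (fun t => de_LOW N τ t * de_LOW N τ t) + ε₁ * P_LOW ω W M)) := by
    have hεC : ε = ε₁ * C0 := by
      rw [hε₁]
      field_simp
    have s4 : ∑ j ∈ Icc 1 55, 2 * (P_LOW ω W M * OR m (fun t => bb_LOW j t * ps_LOW N j t) -
        ε₁ * P_LOW ω W M) = P_LOW ω W M *
          ∑ j ∈ Icc 1 55, 2 * OR m (fun t => bb_LOW j t * ps_LOW N j t) -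
          110 * (ε₁ * P_LOW ω W M) := by
      rw [Finset.mul_sum]
      have : (110 : ℝ) * (ε₁ * P_LOW ω W M) = ∑ j ∈ Icc 1 55, 2 * (ε₁ * P_LOW ω W M) := by
        rw [Finset.sum_const, nsmul_eq_mul, Nat.card_Icc]
        push_cast
        ring
      rw [this, ← Finset.sum_sub_distrib]
      exact Finset.sum_congr rfl fun j _ => by ring
    have s5 : ∑ τ ∈ range 55, mu_LOW N τ * (P_LOW ω W M * (17 / 4 *
          OR m (fun t => ch_LOW N τ t * ch_LOW N τ t) + ε₁) +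
        (((17 / 4 : ℝ) - 1) ^ 2 - 1) * (P_LOW ω W M *
          OR m (fun t => de_LOW N τ t * de_LOW N τ t) + ε₁ * P_LOW ω W M)) =
        P_LOW ω W M * ∑ τ ∈ range 55, mu_LOW N τ * (17 / 4 *
          OR m (fun t => ch_LOW N τ t * ch_LOW N τ t) +
        (((17 / 4 : ℝ) - 1) ^ 2 - 1) * OR m (fun t => de_LOW N τ t * de_LOW N τ t)) +
        ε₁ * P_LOW ω W M *
          ∑ τ ∈ range 55, mu_LOW N τ * (1 + (((17 / 4 : ℝ) - 1) ^ 2 - 1)) := by
      rw [Finset.mul_sum, Finset.mul_sum, ← Finset.sum_add_distrib]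
      exact Finset.sum_congr rfl fun τ _ => by ring
    rw [s4, s5, hOR, hεC, hC0]
    ring
  change P_LOW ω W M * (OR m (om N) - ε) ≤ _
  rw [hfin]
  linarith

end Pool.Agent.Helper27.BG
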