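import Pool.Agent.Helper27.BG.St2

/-! # Project BG, module MUL: discrepancy in several variables -/

set_option autoImplicit false

noncomputable section

namespace Pool.Agent.Helper27.BG

open Finset MeasureTheory
open Pool.Agent.Helper90.MT (DD piDD SW)

/-- the set `A` in the coordinates `ℝ × (Fin n → ℝ)` -/
private def B_MUL {n : ℕ} (A : Set (Fin (n + 1) → ℝ)) : Set (ℝ × (Fin n → ℝ)) :=
  {p | (Fin.cons p.1 p.2 : Fin (n + 1) → ℝ) ∈ A}

private theorem B_eq_MUL {n : ℕ} (A : Set (Fin (n + 1) → ℝ)) :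
    B_MUL A = (MeasurableEquiv.piFinSuccAbove (fun _ : Fin (n + 1) => ℝ) 0).symm ⁻¹' A := by
  ext p
  simp only [B_MUL, Set.mem_ofPred_eq, Set.mem_preimage]
  have : (MeasurableEquiv.piFinSuccAbove (fun _ : Fin (n + 1) => ℝ) 0).symm p =
      (Fin.cons p.1 p.2 : Fin (n + 1) → ℝ) := by
    change (Fin.insertNth (α := fun _ => ℝ) 0 p.1 p.2 : Fin (n + 1) → ℝ) = _
    exact Fin.insertNth_zero' _ _
  rw [this]

private theorem B_meas_MUL {n : ℕ} (A : Set (Fin (n + 1) → ℝ)) (hA : MeasurableSet A) :
    MeasurableSet (B_MUL A) := by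
  rw [B_eq_MUL]
  exact (MeasurableEquiv.measurable _) hA

private theorem B_vol_MUL {n : ℕ} (A : Set (Fin (n + 1) → ℝ)) (hA : MeasurableSet A) :
    volume (B_MUL A) = volume A := by
  rw [B_eq_MUL]
  exact ((volume_preserving_piFinSuccAbove (fun _ : Fin (n + 1) => ℝ) 0).symm
    (MeasurableEquiv.piFinSuccAbove (fun _ : Fin (n + 1) => ℝ) 0)).measure_preimage
      hA.nullMeasurableSet

/-- the interval `[0, 2)` -/
private def I_MUL : Set ℝ := Set.Ico (0 : ℝ) 2

/-- section at the first coordinate -/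
private def X1_MUL {n : ℕ} (A : Set (Fin (n + 1) → ℝ)) (t : ℝ) : Set (Fin n → ℝ) :=
  {y : Fin n → ℝ | (Fin.cons t y : Fin (n + 1) → ℝ) ∈ A}

/-- section at the other coordinates -/
private def X2_MUL {n : ℕ} (A : Set (Fin (n + 1) → ℝ)) (y : Fin n → ℝ) : Set ℝ :=
  {t : ℝ | (Fin.cons t y : Fin (n + 1) → ℝ) ∈ A}

/-- the box -/
private def Bx_MUL (n : ℕ) : Set (Fin n → ℝ) := Set.univ.pi fun _ => Set.Ico (0 : ℝ) 2

private theorem Bx_meas_MUL (n : ℕ) : MeasurableSet (Bx_MUL n) :=
  MeasurableSet.univ_pi fun _ => measurableSet_Ico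

private theorem Bx_vol_MUL (n : ℕ) : (volume (Bx_MUL n)).toReal = 2 ^ n := by
  have h := Real.volume_pi_Ico_toReal (a := fun _ : Fin n => (0 : ℝ)) (b := fun _ => 2)
    (fun _ => by norm_num)
  unfold Bx_MUL
  rw [h]
  simp

private theorem Bx_fin_MUL (n : ℕ) : volume (Bx_MUL n) < ⊤ := by
  unfold Bx_MUL
  rw [Real.volume_pi_Ico]
  exact ENNReal.prod_lt_top fun _ _ => ENNReal.ofReal_lt_top

variable {n : ℕ}

private theorem fin_MUL (A : Set (Fin n → ℝ))
    (hb : ∀ x ∈ A, ∀ h, x h ∈ Set.Ico (0 : ℝ) 2) : volume A < ⊤ :=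
  lt_of_le_of_lt (measure_mono (t := Bx_MUL n) fun x hx => fun h _ => hb x hx h)
    (Bx_fin_MUL n)

/-- sections in the first coordinate -/
private theorem sec1_meas_MUL (A : Set (Fin (n + 1) → ℝ)) (hA : MeasurableSet A) (t : ℝ) :
    MeasurableSet (X1_MUL A t) :=
  (measurable_prodMk_left (x := t)) (B_meas_MUL A hA)

private theorem lint_MUL (A : Set (Fin (n + 1) → ℝ)) (hA : MeasurableSet A) :
    volume A =
      ∫⁻ y : Fin n → ℝ, volume (X2_MUL A y) := by
  rw [← B_vol_MUL A hA, Measure.volume_eq_prod, Measure.prod_apply_symm (B_meas_MUL A hA)]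
  rfl

/-- Fubini -/
private theorem fub_MUL (A : Set (Fin (n + 1) → ℝ)) (hA : MeasurableSet A)
    (hb : ∀ x ∈ A, ∀ h, x h ∈ Set.Ico (0 : ℝ) 2) :
    (volume A).toReal =
      ∫ y : Fin n → ℝ, (volume (X2_MUL A y)).toReal := by
  rw [lint_MUL A hA, integral_toReal]
  · exact (measurable_measure_prodMk_right (B_meas_MUL A hA)).aemeasurable
  · refine Filter.Eventually.of_forall fun y => ?_
    refine lt_of_le_of_lt (measure_mono (t := Set.Ico (0 : ℝ) 2) ?_) (by simp)
    intro t ht
    exact hb _ ht 0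

private theorem integ_MUL (A : Set (Fin (n + 1) → ℝ)) (hA : MeasurableSet A)
    (hb : ∀ x ∈ A, ∀ h, x h ∈ Set.Ico (0 : ℝ) 2) :
    Integrable (fun y : Fin n → ℝ =>
      (volume (X2_MUL A y)).toReal) volume := by
  refine integrable_toReal_of_lintegral_ne_top
    (measurable_measure_prodMk_right (B_meas_MUL A hA)).aemeasurable ?_
  have h := lint_MUL A hA
  have h2 := fin_MUL A hb
  rw [h] at h2
  exact h2.ne

open Classical in
/-- the sum over the first coordinate of the volumes of the sections -/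
private theorem sec_MUL (D : Finset ℕ) (u : ℕ → ℝ) (S δ : ℝ)
    (hyp : ∀ E : Set ℝ, E.OrdConnected → E ⊆ Set.Ico 0 2 →
      |∑ d ∈ D, (if u d ∈ E then 1 / (d : ℝ) else 0) - S * (volume E).toReal| ≤ δ)
    (A : Set (Fin (n + 1) → ℝ)) (hA : MeasurableSet A)
    (hb : ∀ x ∈ A, ∀ h, x h ∈ Set.Ico (0 : ℝ) 2)
    (hs : ∀ y : Fin n → ℝ, Set.OrdConnected (X2_MUL A y)) :
    |∑ d ∈ D, 1 / (d : ℝ) *
        (volume (X1_MUL A (u d))).toReal -
      S * (volume A).toReal| ≤ δ * 2 ^ n := by
  have hsec : ∀ t : ℝ, volume (X1_MUL A t) < ⊤ := by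
    intro t
    refine fin_MUL _ fun y hy h => ?_
    have := hb _ hy h.succ
    simpa using this
  have hint : ∀ d : ℕ, Integrable (fun y : Fin n → ℝ => 1 / (d : ℝ) *
      Set.indicator (X1_MUL A (u d))
        (fun _ => (1 : ℝ)) y) volume := by
    intro d
    refine Integrable.const_mul ?_ _
    rw [integrable_indicator_iff (sec1_meas_MUL A hA (u d))]
    exact integrableOn_const (hsec (u d)).ne
  have hG : ∑ d ∈ D, 1 / (d : ℝ) *
        (volume (X1_MUL A (u d))).toReal =
      ∫ y : Fin n → ℝ, ∑ d ∈ D, 1 / (d : ℝ) *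
        Set.indicator (X1_MUL A (u d))
        (fun _ => (1 : ℝ)) y := by
    rw [integral_finsetSum _ fun d _ => hint d]
    refine Finset.sum_congr rfl fun d _ => ?_
    rw [integral_const_mul, integral_indicator_const _ (sec1_meas_MUL A hA (u d))]
    simp [Measure.real]
  rw [hG, fub_MUL A hA hb, ← integral_const_mul,
    ← integral_sub (integrable_finsetSum _ fun d _ => hint d) ((integ_MUL A hA hb).const_mul S)]
  have hg : Integrable (Set.indicator (Bx_MUL n) fun _ => δ) volume := by
    rw [integrable_indicator_iff (Bx_meas_MUL n)]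
    exact integrableOn_const (Bx_fin_MUL n).ne
  have hle := norm_integral_le_of_norm_le hg (f := fun y : Fin n → ℝ => (∑ d ∈ D, 1 / (d : ℝ) *
        Set.indicator (X1_MUL A (u d))
        (fun _ => (1 : ℝ)) y) -
        S * (volume (X2_MUL A y)).toReal)
    (Filter.Eventually.of_forall fun y => by
      have e1 : ∑ d ∈ D, 1 / (d : ℝ) *
          Set.indicator (X1_MUL A (u d))
          (fun _ => (1 : ℝ)) y =
          ∑ d ∈ D, (if u d ∈ (X2_MUL A y) then
            1 / (d : ℝ) else 0) := by
        refine Finset.sum_congr rfl fun d _ => ?_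
        by_cases h : (Fin.cons (u d) y : Fin (n + 1) → ℝ) ∈ A
        · rw [Set.indicator_of_mem (by exact h), if_pos (by exact h), mul_one]
        · rw [Set.indicator_of_notMem (by exact h), if_neg (by exact h), mul_zero]
      rw [e1, Real.norm_eq_abs]
      by_cases hy : y ∈ Bx_MUL n
      · rw [Set.indicator_of_mem hy]
        exact hyp _ (hs y) fun t ht => hb _ ht 0
      · have e2 : (X2_MUL A y) = ∅ := by
          refine Set.eq_empty_of_forall_notMem fun t ht => hy ?_
          intro h _
          have := hb _ ht h.succ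
          simpa using this
        rw [e2, Set.indicator_of_notMem hy]
        simp)
  rw [Real.norm_eq_abs] at hle
  refine hle.trans (le_of_eq ?_)
  rw [integral_indicator_const _ (Bx_meas_MUL n), Measure.real, Bx_vol_MUL, smul_eq_mul, mul_comm]

private theorem sum_cons_MUL (D : Finset ℕ) (F : (Fin (n + 1) → ℕ) → ℝ) :
    ∑ x ∈ Fintype.piFinset (fun _ : Fin (n + 1) => D), F x =
      ∑ d ∈ D, ∑ y ∈ Fintype.piFinset (fun _ : Fin n => D), F (Fin.cons d y) := by
  rw [← Finset.sum_product']
  symm
  refine Finset.sum_nbij' (fun p => Fin.cons p.1 p.2) (fun x => (x 0, Fin.tail x)) ?_ ?_ ?_ ?_ ?_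
  · intro p hp
    rw [Finset.mem_product, Fintype.mem_piFinset] at hp
    rw [Fintype.mem_piFinset]
    intro h
    refine Fin.cases ?_ (fun j => ?_) h
    · simpa using hp.1
    · simpa using hp.2 j
  · intro x hx
    rw [Fintype.mem_piFinset] at hx
    rw [Finset.mem_product, Fintype.mem_piFinset]
    exact ⟨hx 0, fun j => hx j.succ⟩
  · intro p _
    simp
  · intro x _
    simp
  · intro p _
    rfl

open Classical in
private theorem main_MUL (D : Finset ℕ) (u : ℕ → ℝ) (S δ : ℝ) (hS : 0 ≤ S) (hδ : 0 ≤ δ)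
    (hyp : ∀ E : Set ℝ, E.OrdConnected → E ⊆ Set.Ico 0 2 →
      |∑ d ∈ D, (if u d ∈ E then 1 / (d : ℝ) else 0) - S * (volume E).toReal| ≤ δ) (n : ℕ) :
    ∀ A : Set (Fin n → ℝ), MeasurableSet A → (∀ x ∈ A, ∀ h, x h ∈ Set.Ico (0 : ℝ) 2) →
    (∀ (h : Fin n) (x : Fin n → ℝ), {s : ℝ | Function.update x h s ∈ A}.OrdConnected) →
    |∑ x ∈ Fintype.piFinset (fun _ : Fin n => D),
        (if (fun h => u (x h)) ∈ A then (∏ h, (x h : ℝ))⁻¹ else 0) -
      S ^ n * (volume A).toReal| ≤ n * δ * (2 * S + δ) ^ (n - 1) := by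
  have hw : ∑ d ∈ D, (if u d ∈ I_MUL then 1 / (d : ℝ) else 0) ≤ 2 * S + δ := by
    have h := hyp I_MUL Set.ordConnected_Ico le_rfl
    have h2 : (volume I_MUL).toReal = 2 := by
      unfold I_MUL
      simp
    rw [h2] at h
    have := (abs_le.1 h).2
    linarith
  induction n with
  | zero =>
    intro A hA hb hs
    by_cases h0 : (default : Fin 0 → ℝ) ∈ A
    · have e : A = Set.univ := Set.eq_univ_of_forall fun x => by
        rwa [Subsingleton.elim x default]
      subst e
      simp [volume_pi]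
    · have e : A = ∅ := Set.eq_empty_of_forall_notMem fun x hx =>
        h0 (by rwa [Subsingleton.elim (default : Fin 0 → ℝ) x])
      subst e
      simp
  | succ n ih =>
    intro A hA hb hs
    have hT0 : 0 ≤ 2 * S + δ := by positivity
    have hs' : ∀ y : Fin n → ℝ,
        Set.OrdConnected (X2_MUL A y) := by
      intro y
      have := hs 0 (Fin.cons 0 y)
      simp only [Fin.update_cons_zero] at this
      exact this
    have h2 := sec_MUL D u S δ hyp A hA hb hs'
    -- the sections
    have h1 : ∀ d : ℕ, |∑ y ∈ Fintype.piFinset (fun _ : Fin n => D),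
        (if (fun h => u (y h)) ∈ (X1_MUL A (u d))
          then (∏ h, (y h : ℝ))⁻¹ else 0) - S ^ n *
        (volume (X1_MUL A (u d))).toReal| ≤
        if u d ∈ I_MUL then n * δ * (2 * S + δ) ^ (n - 1) else 0 := by
      intro d
      by_cases hd : u d ∈ I_MUL
      · rw [if_pos hd]
        refine ih _ (sec1_meas_MUL A hA (u d)) ?_ ?_
        · intro y hy h
          have := hb _ hy h.succ
          simpa using this
        · intro h y
          have := hs h.succ (Fin.cons (u d) y)
          simp only [← Fin.cons_update] at this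
          exact this
      · have e2 : (X1_MUL A (u d)) = ∅ := by
          refine Set.eq_empty_of_forall_notMem fun y hy => hd ?_
          exact hb _ hy 0
        rw [if_neg hd, e2]
        simp
    have hsum : ∑ x ∈ Fintype.piFinset (fun _ : Fin (n + 1) => D),
        (if (fun h => u (x h)) ∈ A then (∏ h, (x h : ℝ))⁻¹ else 0) =
        ∑ d ∈ D, 1 / (d : ℝ) * ∑ y ∈ Fintype.piFinset (fun _ : Fin n => D),
        (if (fun h => u (y h)) ∈ (X1_MUL A (u d))
          then (∏ h, (y h : ℝ))⁻¹ else 0) := by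
      rw [sum_cons_MUL]
      refine Finset.sum_congr rfl fun d _ => ?_
      rw [Finset.mul_sum]
      refine Finset.sum_congr rfl fun y _ => ?_
      have e3 : (fun h => u ((Fin.cons d y : Fin (n + 1) → ℕ) h)) =
          (Fin.cons (u d) (fun h => u (y h)) : Fin (n + 1) → ℝ) := by
        funext h
        refine Fin.cases ?_ (fun j => ?_) h
        · simp
        · simp
      rw [e3]
      by_cases hm : (Fin.cons (u d) (fun h => u (y h)) : Fin (n + 1) → ℝ) ∈ A
      · rw [if_pos hm, if_pos (by exact hm), Fin.prod_univ_succ]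
        simp [mul_comm]
      · rw [if_neg hm, if_neg (by exact hm), mul_zero]
    rw [hsum]
    set I : ℕ → ℝ := fun d => ∑ y ∈ Fintype.piFinset (fun _ : Fin n => D),
        (if (fun h => u (y h)) ∈ (X1_MUL A (u d))
          then (∏ h, (y h : ℝ))⁻¹ else 0) with hI
    set v : ℕ → ℝ := fun d =>
        (volume (X1_MUL A (u d))).toReal with hv
    have hA1 : |∑ d ∈ D, 1 / (d : ℝ) * (I d - S ^ n * v d)| ≤
        n * δ * (2 * S + δ) ^ n := by
      calc |∑ d ∈ D, 1 / (d : ℝ) * (I d - S ^ n * v d)|
          ≤ ∑ d ∈ D, |1 / (d : ℝ) * (I d - S ^ n * v d)| := Finset.abs_sum_le_sum_abs _ _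
        _ ≤ ∑ d ∈ D, (if u d ∈ I_MUL then 1 / (d : ℝ) else 0) *
              (n * δ * (2 * S + δ) ^ (n - 1)) := by
            refine Finset.sum_le_sum fun d _ => ?_
            rw [abs_mul, abs_of_nonneg (by positivity : (0 : ℝ) ≤ 1 / (d : ℝ))]
            have h3 := h1 d
            by_cases hd : u d ∈ I_MUL
            · rw [if_pos hd] at h3 ⊢
              exact mul_le_mul_of_nonneg_left h3 (by positivity)
            · rw [if_neg hd] at h3 ⊢
              rw [zero_mul]
              exact mul_nonpos_of_nonneg_of_nonpos (by positivity) h3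
        _ = (∑ d ∈ D, (if u d ∈ I_MUL then 1 / (d : ℝ) else 0)) *
              (n * δ * (2 * S + δ) ^ (n - 1)) := by rw [Finset.sum_mul]
        _ ≤ (2 * S + δ) * (n * δ * (2 * S + δ) ^ (n - 1)) :=
            mul_le_mul_of_nonneg_right hw (by positivity)
        _ = n * δ * (2 * S + δ) ^ n := by
            rcases Nat.eq_zero_or_pos n with rfl | hn
            · simp
            · obtain ⟨k, rfl⟩ := Nat.exists_eq_succ_of_ne_zero hn.ne'
              simp only [Nat.succ_eq_add_one, Nat.add_sub_cancel]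
              ring
    have hA2 : |S ^ n * (∑ d ∈ D, 1 / (d : ℝ) * v d - S * (volume A).toReal)| ≤
        δ * (2 * S + δ) ^ n := by
      rw [abs_mul, abs_of_nonneg (by positivity : (0 : ℝ) ≤ S ^ n)]
      calc S ^ n * |∑ d ∈ D, 1 / (d : ℝ) * v d - S * (volume A).toReal|
          ≤ S ^ n * (δ * 2 ^ n) := mul_le_mul_of_nonneg_left h2 (by positivity)
        _ = δ * (2 * S) ^ n := by rw [mul_pow]; ring
        _ ≤ δ * (2 * S + δ) ^ n :=
            mul_le_mul_of_nonneg_left (pow_le_pow_left₀ (by positivity) (by linarith) _) hδ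
    have hsplit : ∑ d ∈ D, 1 / (d : ℝ) * I d - S ^ (n + 1) * (volume A).toReal =
        ∑ d ∈ D, 1 / (d : ℝ) * (I d - S ^ n * v d) +
          S ^ n * (∑ d ∈ D, 1 / (d : ℝ) * v d - S * (volume A).toReal) := by
      have e4 : ∑ d ∈ D, 1 / (d : ℝ) * (I d - S ^ n * v d) =
          ∑ d ∈ D, 1 / (d : ℝ) * I d - S ^ n * ∑ d ∈ D, 1 / (d : ℝ) * v d := by
        rw [Finset.mul_sum, ← Finset.sum_sub_distrib]
        exact Finset.sum_congr rfl fun d _ => by ring
      rw [e4]
      ring
    rw [hsplit]
    refine (abs_add_le _ _).trans ((add_le_add hA1 hA2).trans (le_of_eq ?_))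
    rw [Nat.add_sub_cancel]
    push_cast
    ring

theorem hMul : StMul := by
  classical
  intro α κ _ _ _ _ pr u S δ hS hδ hyp A hA hb hs
  set K := Fintype.card κ with hK
  let e : κ ≃ Fin K := Fintype.equivFin κ
  -- the set in the coordinates `Fin K`
  let ψ := MeasurableEquiv.piCongrLeft (fun _ : Fin K => ℝ) e
  have hψ : MeasurePreserving ψ volume volume :=
    volume_measurePreserving_piCongrLeft (fun _ : Fin K => ℝ) e
  set A' : Set (Fin K → ℝ) := {z | (fun h => z (e h)) ∈ A} with hA'
  have hpre : ψ ⁻¹' A' = A := by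
    ext x
    simp only [hA', Set.mem_preimage, Set.mem_ofPred_eq]
    have : (fun h => ψ x (e h)) = x := by
      funext h
      exact Equiv.piCongrLeft_apply_apply (fun _ : Fin K => ℝ) e x h
    rw [this]
  have hmeas : MeasurableSet A' := by
    have : Measurable (fun z : Fin K → ℝ => fun h : κ => z (e h)) :=
      measurable_pi_lambda _ fun h => measurable_pi_apply (e h)
    exact this hA
  have hvol : volume A' = volume A := by
    rw [← hpre]
    exact (hψ.measure_preimage hmeas.nullMeasurableSet).symm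
  have hmain := main_MUL (DD pr) u S δ hS hδ (fun E hE hE2 => by
    convert hyp E hE hE2) K A' hmeas
    (fun z hz h => by
      have := hb _ hz (e.symm h)
      simpa using this)
    (fun h z => by
      have := hs (e.symm h) (fun k => z (e k))
      have e5 : {s : ℝ | Function.update z h s ∈ A'} =
          {s : ℝ | Function.update (fun k => z (e k)) (e.symm h) s ∈ A} := by
        ext s
        simp only [hA', Set.mem_ofPred_eq]
        have : (fun k => Function.update z h s (e k)) =
            Function.update (fun k => z (e k)) (e.symm h) s := by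
          funext k
          by_cases hk : k = e.symm h
          · subst hk
            simp
          · have hk' : e k ≠ h := fun h' => hk (by rw [← h', Equiv.symm_apply_apply])
            rw [Function.update_of_ne hk', Function.update_of_ne hk]
        rw [this]
      rw [e5]
      exact this)
  rw [hvol] at hmain
  refine le_trans (le_of_eq ?_) hmain
  congr 2
  unfold piDD
  refine Finset.sum_nbij' (fun x : κ → ℕ => fun j => x (e.symm j))
    (fun z : Fin K → ℕ => fun h => z (e h)) ?_ ?_ ?_ ?_ ?_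
  · intro x hx
    rw [Fintype.mem_piFinset] at hx ⊢
    exact fun j => hx _
  · intro z hz
    rw [Fintype.mem_piFinset] at hz ⊢
    exact fun h => hz _
  · intro x _
    funext h
    simp
  · intro z _
    funext j
    simp
  · intro x _
    simp only [hA', Set.mem_ofPred_eq, Equiv.symm_apply_apply]
    have : ∏ j : Fin K, ((x (e.symm j) : ℕ) : ℝ) = ∏ h : κ, (x h : ℝ) :=
      Equiv.prod_comp e.symm (fun h => (x h : ℝ))
    rw [this]

end Pool.Agent.Helper27.BG
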